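import Pool.Agent.Q271.MJ.Main

set_option autoImplicit false

/-!
# MP_e8eed4: every countable multigraph is majority 3-colourable
-/

namespace Pool.Agent.Results.MP_e8eed4_co.Majority3

open Pool.Agent.Q271.MJ

/-- **MP_e8eed4, answer: no such multigraph exists.** Every countable graph with natural number
weights on its edges has a majority colouring with (at most) three colours. -/
theorem result {V : Type*} [Countable V] (G : SimpleGraph V) (w : Sym2 V → ℕ) :
    ∃ φ : V → Fin 3, IsMajority G w φ :=
  main G w

end Pool.Agent.Results.MP_e8eed4_co.Majority3
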